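import Pool.Agent.Helper27.BG.St4

/-!
# Project BG, module EVI: evaluation of `∫ F²`
-/

set_option autoImplicit false

noncomputable section

namespace Pool.Agent.Helper82.BG

open Finset MeasureTheory Pool.Agent.Helper27.BG

/-- coefficients of a power of a polynomial as a sum over tuples -/
theorem coeff_pow (ι : Type) [Fintype ι] [DecidableEq ι] (w : ℕ → ℤ) (N n : ℕ) :
    ((∑ i ∈ range N, Polynomial.C (w i) * Polynomial.X ^ i) ^ Fintype.card ι).coeff n =
      ∑ i ∈ Fintype.piFinset (fun _ : ι => range N), if ∑ h, i h = n then ∏ h, w (i h) else 0 := by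
  rw [← Finset.card_univ, ← Finset.prod_const, Finset.prod_univ_sum, Polynomial.finsetSum_coeff]
  refine sum_congr rfl fun i _ => ?_
  rw [Finset.prod_mul_distrib, Finset.prod_pow_eq_pow_sum, ← map_prod, Polynomial.coeff_C_mul,
    Polynomial.coeff_X_pow]
  by_cases h : ∑ h, i h = n
  · simp [h]
  · rw [if_neg (fun h' => h h'.symm), if_neg h, mul_zero]

/-- convolution form -/
theorem conv_eq (ι : Type) [Fintype ι] [DecidableEq ι] (w : ℕ → ℤ) (N t : ℕ) (E : ℕ → ℤ) :
    ∑ n ∈ range (t + 1),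
      ((∑ i ∈ range N, Polynomial.C (w i) * Polynomial.X ^ i) ^ Fintype.card ι).coeff n * E (t - n) =
      ∑ i ∈ Fintype.piFinset (fun _ : ι => range N),
        (∏ h, w (i h)) * (if ∑ h, i h ≤ t then E (t - ∑ h, i h) else 0) := by
  calc ∑ n ∈ range (t + 1),
      ((∑ i ∈ range N, Polynomial.C (w i) * Polynomial.X ^ i) ^ Fintype.card ι).coeff n * E (t - n)
      = ∑ n ∈ range (t + 1), ∑ i ∈ Fintype.piFinset (fun _ : ι => range N),
        (if ∑ h, i h = n then (∏ h, w (i h)) * E (t - ∑ h, i h) else 0) := by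
        refine sum_congr rfl fun n _ => ?_
        rw [coeff_pow, Finset.sum_mul]
        refine sum_congr rfl fun i _ => ?_
        by_cases h : ∑ h, i h = n
        · rw [if_pos h, if_pos h, h]
        · rw [if_neg h, if_neg h, zero_mul]
    _ = ∑ i ∈ Fintype.piFinset (fun _ : ι => range N), ∑ n ∈ range (t + 1),
        (if ∑ h, i h = n then (∏ h, w (i h)) * E (t - ∑ h, i h) else 0) := Finset.sum_comm
    _ = _ := by
        refine sum_congr rfl fun i _ => ?_
        rw [Finset.sum_ite_eq]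
        by_cases h : ∑ h, i h ≤ t
        · rw [if_pos (by rw [mem_range]; omega), if_pos h]
        · rw [if_neg (by rw [mem_range]; omega), if_neg h, mul_zero]

/-- one pair of tables -/
theorem pair_eq (ι : Type) [Fintype ι] [DecidableEq ι] (hc : Fintype.card ι = 49)
    (g g' : ℕ → ℕ) (c : ℕ → ℤ) :
    ∑ i ∈ Fintype.piFinset (fun _ : ι => range 1055), ∑ t ∈ range 1055,
      (c t : ℝ) * ((∏ h, (g (i h) : ℝ)) * (∏ h, (g' (i h) : ℝ))) *
        (if ∑ h, i h ≤ t then
          ((PQ 49 0 (t - ∑ h, i h + 1) - PQ 49 0 (t - ∑ h, i h) : ℤ) : ℝ) else 0) =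
      ((∑ t ∈ range 1055, c t * CC g g' t : ℤ) : ℝ) := by
  rw [Finset.sum_comm, Int.cast_sum]
  refine sum_congr rfl fun t _ => ?_
  have h1 := conv_eq ι (fun i => (g i : ℤ) * g' i) 1055 t (fun j => PQ 49 0 (j + 1) - PQ 49 0 j)
  rw [hc] at h1
  have h2 : CC g g' t = ∑ i ∈ Fintype.piFinset (fun _ : ι => range 1055),
      (∏ h, ((g (i h) : ℤ) * g' (i h))) * (if ∑ h, i h ≤ t then
        (PQ 49 0 (t - ∑ h, i h + 1) - PQ 49 0 (t - ∑ h, i h)) else 0) := by
    rw [← h1]; rfl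
  rw [h2, Finset.mul_sum, Int.cast_sum]
  refine sum_congr rfl fun i _ => ?_
  rw [Finset.prod_mul_distrib]
  push_cast
  ring

theorem hEvi : StEvi := by
  intro hI hC ι _ _ hc
  have hvol : ∀ (i : ι → ℕ) (t : ℕ), (volume (cs1 i t)).toReal =
      (1 / 1000 : ℝ) ^ 49 / (Nat.factorial 49 : ℝ) * (if ∑ h, i h ≤ t then
        ((PQ 49 0 (t - ∑ h, i h + 1) - PQ 49 0 (t - ∑ h, i h) : ℤ) : ℝ) else 0) := by
    intro i t
    rw [hC ι i t]
    by_cases h : ∑ h, i h ≤ t
    · rw [if_pos h, if_pos h, (hI ι 49 (t - ∑ h, i h) hc (by norm_num)).1, hc]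
      ring
    · rw [if_neg h, if_neg h, mul_zero]
  have key : IR ι = (1 / 1000 : ℝ) ^ 49 / (Nat.factorial 49 : ℝ) *
      (((∑ t ∈ range 1055, (hA t : ℤ) ^ 2 * CC gA gA t : ℤ) : ℝ) +
       ((∑ t ∈ range 1055, (-2 * ((hA t : ℤ) * hB t)) * CC gA gB t : ℤ) : ℝ) +
       ((∑ t ∈ range 1055, (hB t : ℤ) ^ 2 * CC gB gB t : ℤ) : ℝ)) := by
    rw [← pair_eq ι hc gA gA (fun t => (hA t : ℤ) ^ 2),
      ← pair_eq ι hc gA gB (fun t => -2 * ((hA t : ℤ) * hB t)),
      ← pair_eq ι hc gB gB (fun t => (hB t : ℤ) ^ 2), ← Finset.sum_add_distrib,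
      ← Finset.sum_add_distrib, Finset.mul_sum]
    unfold IR
    refine sum_congr rfl fun i _ => ?_
    rw [← Finset.sum_add_distrib, ← Finset.sum_add_distrib, Finset.mul_sum]
    refine sum_congr rfl fun t _ => ?_
    rw [hvol i t]
    unfold FN
    push_cast
    ring
  rw [key, ← Int.cast_add, ← Int.cast_add]
  have h3 : (∑ t ∈ range 1055, (hA t : ℤ) ^ 2 * CC gA gA t) +
      (∑ t ∈ range 1055, (-2 * ((hA t : ℤ) * hB t)) * CC gA gB t) +
      (∑ t ∈ range 1055, (hB t : ℤ) ^ 2 * CC gB gB t) = Inum := by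
    unfold Inum
    rw [← Finset.sum_add_distrib, ← Finset.sum_add_distrib]
    refine sum_congr rfl fun t _ => ?_
    ring
  rw [h3]
  rw [one_div, inv_pow, div_eq_mul_inv, div_eq_mul_inv, mul_inv]
  ring

end Pool.Agent.Helper82.BG
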